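import Mathlib

/-!
# Squad EWG (MP_b66c3b_nt): the number of Erdos-Woods numbers, definitions

* `NoCoprimeInterior a d`, `IsErdosWoods d`, `ewCount n` : as in the problem file.
* `IsRankTwo d` : `d` has a certificate with two primes, that is a pair `(a, d)` without coprime interior
  point such that exactly two primes below `d`, not dividing `d`, divide `a + d`.
* `D l n`, `Th x l` : used in the analytic part.
* `lpr x` : the primes `p <= x` such that `p - 1` has a prime factor `l` with `2 x < l^2`; `lss x` : those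
  with `x < p + l`.
-/

set_option autoImplicit false

namespace Pool.Agent.EWG

open scoped ArithmeticFunction

/-- Every integer strictly between `a` and `a + d` has a common factor with `a` or with `a + d`. -/
def NoCoprimeInterior (a d : ℕ) : Prop :=
  ∀ c, a < c → c < a + d → 1 < Nat.gcd a c ∨ 1 < Nat.gcd c (a + d)

/-- Erdos-Woods numbers. -/
def IsErdosWoods (d : ℕ) : Prop := 3 ≤ d ∧ ∃ a, NoCoprimeInterior a d

/-- The number of Erdos-Woods numbers up to `n`. -/
noncomputable def ewCount (n : ℕ) : ℕ := {d : ℕ | d ≤ n ∧ IsErdosWoods d}.ncard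

/-- Erdos-Woods numbers with a certificate of two primes. -/
def IsRankTwo (d : ℕ) : Prop :=
  3 ≤ d ∧ ∃ a, NoCoprimeInterior a d ∧
    {p : ℕ | p.Prime ∧ p < d ∧ ¬ p ∣ d ∧ p ∣ a + d}.ncard = 2

/-- The number of those up to `n`. -/
noncomputable def r2Count (n : ℕ) : ℕ := {d : ℕ | d ≤ n ∧ IsRankTwo d}.ncard

/-- `1` if `n = 1 mod l`, minus the mean over the units. -/
noncomputable def D (l n : ℕ) : ℝ :=
  (if n % l = 1 % l then 1 else 0) - (if l ∣ n then 0 else 1 / ((l : ℝ) - 1))

/-- The sum of `log p` over the primes `p <= x`, `p = 1 mod l`. -/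
noncomputable def Th (x l : ℕ) : ℝ :=
  ∑ p ∈ (Finset.Icc 1 x).filter (fun p => p.Prime ∧ p % l = 1 % l), Real.log p

open Classical in
/-- primes `p <= x` with a large prime factor of `p - 1` -/
noncomputable def lpr (x : ℕ) : Finset ℕ :=
  (Finset.Icc 1 x).filter (fun p => p.Prime ∧ ∃ l, l.Prime ∧ l ∣ p - 1 ∧ 2 * x < l ^ 2)

open Classical in
/-- those with `x < p + l` -/
noncomputable def lss (x : ℕ) : Finset ℕ :=
  (Finset.Icc 1 x).filter (fun p => p.Prime ∧ ∃ l, l.Prime ∧ l ∣ p - 1 ∧ 2 * x < l ^ 2 ∧ x < p + l)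

end Pool.Agent.EWG
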