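import Pool.Agent.EWG.Defs

/-!
# EWG, part C: from the mean value of the error terms to Goldfeld's theorem (rows)

MP_b66c3b_nt (counting Erdős–Woods numbers).  `l`, `p` are primes.  `Th x q` is the sum of `log p` over
the primes `p ≤ x` with `p % q = 1 % q`.  Every row is self contained, its complete proof is in the
docstring.  Tools: `Common_Sieve/BT.lean` (`rough_in_ap`), `Common_Sieve/Apps.lean` (`sieve_two`,
`epsB_31`, `exp_epsB_31`), `Common_Sieve/Primes.lean` (`up` is a template for TWA),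
`Common_Mertens/Mertens.lean` (`sum_log_div_le`), `Common_PNT/PNT.lean` (`tendsto_psi_div`,
`tendsto_theta_div`, `tendsto_primeCounting`), Mathlib `NumberTheory/Chebyshev.lean`
(`theta_le_log4_mul_x`, `psi_ge`, `pi_ge`, `theta_le_pi_mul_log`).
-/

set_option autoImplicit false

namespace Pool.Agent.EWG

open Finset

/-- the primes in a set of numbers -/
def pr (s : Finset ℕ) : Finset ℕ := s.filter Nat.Prime

theorem mem_pr {s : Finset ℕ} {p : ℕ} : p ∈ pr s ↔ p ∈ s ∧ p.Prime := by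
  unfold pr
  rw [Finset.mem_filter]

/-- BVF (weak form), the result of part B: mean value of the error terms over prime moduli -/
def BvfW : Prop := ∀ δ ε η : ℝ, 0 < δ → 0 < ε → 0 < η → ∃ X : ℕ, ∀ x : ℕ, X ≤ x →
  ∑ l ∈ (pr (Icc 1 x)).filter (fun l : ℕ => (x : ℝ) ^ δ < l ∧ (l : ℝ) ≤ (x : ℝ) ^ (1 / 2 - ε)),
    Real.log l * |∑ n ∈ Icc 1 x, (ArithmeticFunction.vonMangoldt n : ℝ) * D l n| ≤
      η * x * Real.log x

/-- BT2 (medium).  **Brun-Titchmarsh** for moduli up to `x^(3/5)`.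
Proof.  `x < X0` (a constant): `Th x q ≤ Th x 1 ≤ log 4 * x` (`Chebyshev.theta_le_log4_mul_x`) and
`φ(q) ≤ q ≤ x ≤ X0`.  `x ≥ X0`: `w = ⌊x^(1/2000)⌋ ≥ 2`.  The primes `p ≤ x`, `p % q = 1 % q` with `p ≥ w` have
no prime factor `< w`: `rough_in_ap w q 1 0 x`: their number is `≤ (x/q + 1) (1/log w) (q/φ(q)) 3 + w^260`,
`x/q ≥ 1`, `log w ≥ log x / 4000`, so it is `≤ 24000 x/(φ(q) log x) + x^(1/5)`; the others: `≤ w`.  Each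
`log p ≤ log x`, and `x^(1/5) log x ≤ C x^(2/5) ≤ C x / q ≤ C x / φ(q)`. -/
def Bt2Stmt : Prop := ∃ C : ℝ, 0 < C ∧ ∀ x q : ℕ, 1 ≤ x → 0 < q → q ^ 5 ≤ x ^ 3 →
  Th x q ≤ C * x / (Nat.totient q : ℝ)

/-- SLL (easy-medium).  Mertens, upper bound with `l - 1`.
Proof.  `log l / (l-1) = log l / l + log l / (l (l-1))`; `Common_Mertens.sum_log_div_le`; for `l ≥ 2`:
`log l / (l (l-1)) ≤ 2 log l / l^2 ≤ 4 / l^(3/2)` (`log l ≤ 2 √l`), a convergent series. -/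
def SllStmt : Prop := ∃ C : ℝ, 0 < C ∧ ∀ y : ℕ, 1 ≤ y →
  ∑ l ∈ pr (Icc 1 y), Real.log l / ((l : ℝ) - 1) ≤ Real.log y + C

/-- MRG (easy-medium).  The sum over a range.
Proof.  `log l / (l-1) ≤ 2 log l / l`.  Let `K` be the least number with `y' ≤ 2^K y`,
`K ≤ log (y'/y) / log 2 + 1`.  For `k < K`: the sum of `log l / l` over `2^k y < l ≤ 2^(k+1) y` is
`≤ θ(2^(k+1) y) / (2^k y) ≤ 2 log 4` (`Chebyshev.theta_le_log4_mul_x`). -/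
def MrgStmt : Prop := ∃ C : ℝ, 0 < C ∧ ∀ (y y' : ℝ) (N : ℕ), 1 ≤ y → y ≤ y' →
  ∑ l ∈ (pr (Icc 1 N)).filter (fun l : ℕ => y < l ∧ (l : ℝ) ≤ y'), Real.log l / ((l : ℝ) - 1) ≤
    C * (Real.log (y' / y) + 1)

/-- PPW (medium, uses BT2).  **Prime powers in `p - 1`.**
Proof.  `log (p-1) = ∑ over prime powers l^k ∣ p - 1 of log l` (`ArithmeticFunction.vonMangoldt_sum`), so
the bracket is the sum over `l^k ∣ p - 1`, `k ≥ 2`, of `log l`, which is `≤ 2 ∑_(s^2 ∣ p - 1) Λ(s)`: `l^k ∣ n`,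
`k ≥ 2`, implies `(l^j)^2 ∣ n` with `j = k/2 ≥ 1`, and each `j` comes from at most two `k`.  So the sum is
`≤ 2 ∑_(1 < s ≤ √x) Λ(s) Th x (s^2)`.  `s^10 ≤ x^3`: BT2, `φ(s^2) ≥ s^2/2` for a prime power `s`,
`∑ Λ(s)/s^2 ≤ ∑ (log s)/s^2 < ∞`: `≤ C x`.  `s^10 > x^3`: `Th x (s^2) ≤ (log x) (x/s^2)` (the numbers
`1 + s^2 k ≤ x`, `k ≥ 1`), `∑_(s > S) 1/s^2 ≤ 2/S` with `S = x^(3/10)`: `≤ 2 x (log x)^2 x^(-3/10) ≤ C x`. -/
def PpwStmt : Prop := ∃ C : ℝ, 0 < C ∧ ∀ x : ℕ, 1 ≤ x →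
  ∑ p ∈ pr (Icc 3 x), Real.log p * (Real.log ((p : ℝ) - 1) -
    ∑ l ∈ (p - 1).primeFactors, Real.log l) ≤ C * x

/-- TOT (medium).  The total, from the prime number theorem.
Proof.  `η ≤ 1`.  `y = x^(1-η/4)`.  For `p > y`: `log (p-1) ≥ log (y/2) ≥ (1-η/4) log x - log 2`.
`∑_(y < p ≤ x) log p = θ(x) - θ(y) ≥ (1 - η/4) x - log 4 * y` for large `x`
(`Common_PNT.tendsto_theta_div`). -/
def TotStmt : Prop := ∀ η : ℝ, 0 < η → ∃ X : ℕ, ∀ x : ℕ, X ≤ x →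
  (1 - η) * x * Real.log x ≤ ∑ p ∈ pr (Icc 3 x), Real.log p * Real.log ((p : ℝ) - 1)

/-- SWP (easy-medium).  Interchange of the sums.
Proof.  For a prime `3 ≤ p ≤ x` and a prime `l ≤ x`: `l ∣ p - 1` iff `p % l = 1 % l` (`l ≥ 2`), and
`l ∣ p - 1` implies `l < x`; `2 % l = 1 % l` is false for `l ≥ 2`. -/
def SwpStmt : Prop := ∀ x : ℕ,
  ∑ p ∈ pr (Icc 3 x), Real.log p * ∑ l ∈ (p - 1).primeFactors, Real.log l =
    ∑ l ∈ pr (Icc 1 x), Real.log l * Th x l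

/-- MDL (medium, uses BvfW, SLL).  The middle range.
Proof.  `Th x l ≤ ∑_(n ≤ x, n % l = 1) Λ(n) = ∑ Λ(n) D l n + (1/(l-1)) ∑_(n ≤ x, l ∤ n) Λ(n) ≤
|∑ Λ(n) D l n| + ψ(x)/(l-1)` (`Λ(p) = log p`).  BVF with `η/4`; `ψ(x) ≤ (1 + η/4) x`
(`Common_PNT.tendsto_psi_div`); SLL with `y = ⌊x^(1/2)⌋`: `∑ log l/(l-1) ≤ (1/2) log x + C`. -/
def MdlStmt : Prop := ∀ δ ε η : ℝ, 0 < δ → 0 < ε → 0 < η → ∃ X : ℕ, ∀ x : ℕ, X ≤ x →
  ∑ l ∈ (pr (Icc 1 x)).filter (fun l : ℕ => (x : ℝ) ^ δ < l ∧ (l : ℝ) ≤ (x : ℝ) ^ (1 / 2 - ε)),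
    Real.log l * Th x l ≤ (1 / 2 + η) * x * Real.log x

/-- LOE (easy-medium, uses BT2, SLL).  The small moduli.
Proof.  `l ≤ x^δ`, `δ ≤ 1/2`, so `l^5 ≤ x^3`; `φ(l) = l - 1`; `∑ log l * C x / (l-1) ≤ C x (δ log x + C')`
(SLL with `y = ⌊x^δ⌋`). -/
def LoeStmt : Prop := ∃ C : ℝ, 0 < C ∧ ∀ δ : ℝ, 0 < δ → δ ≤ 1 / 2 → ∀ x : ℕ, 1 ≤ x →
  ∑ l ∈ (pr (Icc 1 x)).filter (fun l : ℕ => (l : ℝ) ≤ (x : ℝ) ^ δ), Real.log l * Th x l ≤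
    C * x * (δ * Real.log x + 1)

/-- HIE (easy-medium, uses BT2, MRG).  The moduli near `x^(1/2)`.
Proof.  `l^2 ≤ 2 x`: `l^5 ≤ x^3` for `x ≥ 32` (`l^10 ≤ 32 x^5 ≤ x^6`); for `x < 32`: `Th x l ≤ log 4 * x` and
at most 31 terms.  MRG with `y = x^(1/2-ε)`, `y' = (2x)^(1/2)`: `log (y'/y) ≤ ε log x + 1`. -/
def HieStmt : Prop := ∃ C : ℝ, 0 < C ∧ ∀ ε : ℝ, 0 < ε → ε ≤ 1 / 2 → ∀ x : ℕ, 1 ≤ x →
  ∑ l ∈ (pr (Icc 1 x)).filter (fun l : ℕ => (x : ℝ) ^ (1 / 2 - ε) < l ∧ l ^ 2 ≤ 2 * x),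
    Real.log l * Th x l ≤ C * x * (ε * Real.log x + 1)

/-- GOL (medium, uses PPW, TOT, SWP, MDL, LOE, HIE).  **Goldfeld.**
Proof.  TOT (`η/8`), PPW, SWP: `∑_(l ≤ x) log l Th x l ≥ (1 - η/8) x log x - C x`.  Every prime `l ≤ x` with
`l^2 ≤ 2 x` is in one of the three ranges `l ≤ x^δ`, `x^δ < l ≤ x^(1/2-δ)`, `x^(1/2-δ) < l`, `l^2 ≤ 2 x`
(`δ ≤ 1/4` small): LOE, MDL (`η/8`), HIE. -/
def GolStmt : Prop := ∀ η : ℝ, 0 < η → ∃ X : ℕ, ∀ x : ℕ, X ≤ x →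
  (1 / 2 - η) * x * Real.log x ≤
    ∑ l ∈ (pr (Icc 1 x)).filter (fun l : ℕ => 2 * x < l ^ 2), Real.log l * Th x l

/-- CNT (medium, uses GOL).  **Goldfeld, counting form.**
Proof.  The sum of GOL is `∑_(p ≤ x) log p ∑_(l ∣ p - 1, 2x < l^2) log l` (as SWP; `Th x l` contains no
`p = 2` since `2 % l = 1 % l` is false).  For each `p` there is at most one such `l` (`l ≠ l'`: `l l' ∣ p - 1`,
`l l' ≤ p - 1 < x` but `(l l')^2 > 4 x^2`), none if `p ∉ lpr x`, `log l ≤ log x`, `log p ≤ log x`.  So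
`(1/2 - η) x log x ≤ (log x)^2 * card`. -/
def CntStmt : Prop := ∀ η : ℝ, 0 < η → ∃ X : ℕ, ∀ x : ℕ, X ≤ x →
  (1 / 2 - η) * (x / Real.log x) ≤ ((lpr x).card : ℝ)

/-- TWA (medium).  Upper bound for the primes `l` with `a l + 1` prime.
Proof.  Copy of `Common_Sieve.up` (Primes.lean) with `a n + 1` in place of `A n + D z`: `sieve_two` with
`A₁ = 1, B₁ = 0, A₂ = a, B₂ = 1`, determinant `1`, `w = lev x`, `S` = primes `p` with `a + 3 ≤ p < w`,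
`b = 31`: `(Y = x) x ∏ (1 - 2/p) 3 + w^260`, `∏ (1 - 2/p) ≤ ∏ (1 - 1/p)^2 ≤ C/(log w)^2` (`prod_S_le`);
the `n ≤ w` are at most `w`. -/
def TwaStmt : Prop := ∀ a : ℕ, 1 ≤ a → ∃ C : ℝ, 0 < C ∧ ∃ X : ℕ, ∀ x : ℕ, X ≤ x →
  (((pr (Icc 1 x)).filter (fun n => (a * n + 1).Prime)).card : ℝ) ≤ C * x / (Real.log x) ^ 2

/-- LOS (medium, uses TWA).  **The loss from `p + l > n`.**
Proof.  (`n = x`.)  `A = ⌈4/η⌉`.  Let `p ≤ n` be prime, `a l = p - 1`, `n < p + l`.  If `a ≤ A`: `l ≤ n`, `l` and `a l + 1`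
are prime, `l` determines `p` for given `a` (`1 ≤ a`): at most `∑_(a ≤ A) C_a n/(log n)^2 ≤ (η/4) n/log n`
for large `n` (TWA).  If `a > A`: `l ≤ p/A`, so `n < p (1 + 1/A)`, `p > n' = n A/(A+1)`; the number of
these primes is `≤ π(n) - π(⌊n'⌋)`, and by `Common_PNT.tendsto_primeCounting` it is
`≤ (1 - A/(A+1) + η/4) n/log n` for large `n` (`log n' ~ log n`). -/
def LosStmt : Prop := ∀ η : ℝ, 0 < η → ∃ X : ℕ, ∀ x : ℕ, X ≤ x →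
  ((lss x).card : ℝ) ≤ η * (x / Real.log x)

end Pool.Agent.EWG
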