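import Pool.Agent.EWG.Defs

/-!
# Squad EWG (MP_b66c3b_nt), part A: certificates with two primes (rows)

THEOREM of the squad: for every `ε > 0` and all large `n` there are at least `(1/2 - ε) n / log n`
Erdos-Woods numbers up to `n`; the Erdos-Woods numbers with a certificate of two primes (the minimal
number) are exactly the `d = p + l < l^2` with primes `p`, `l`, `l | p - 1`, and their number is between
`(1/2 - ε) n / log n` and `(1 + ε) n / log n`.

Every row: file `Pool/Agent/HelperNN_EWG/XXX.lean`, import `Pool.Agent.EWG.StmtsA`, namespace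
`Pool.Agent.EWG.HNN`, theorem `xxx (hypotheses = rows in uses, in this order) : XxxStmt`.
-/

set_option autoImplicit false

namespace Pool.Agent.EWG

/-- **EWC** (medium; uses nothing).  The criterion.
PROOF.  `d = p + l`, `l < p` (`l ≤ p - 1`), `d < l^2 < l p`.  `P` = the product of the primes `r < d`, `r ≠ p`,
`r ≠ l`; it is coprime to `l p`.  CRT (`Nat.chineseRemainder`): `a` with `P ∣ a` and `l p ∣ a + d`.  Let `c = a + j`,
`1 ≤ j < d`.  (1) some prime `r ∉ {p, l}` divides `j`: `r ≤ j < d`, so `r ∣ P ∣ a` and `r ∣ c`: `gcd a c > 1`.  (2) all prime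
factors of `j` are `p` or `l`: `j = 1` or `j = r k` with `r ∈ {l, p}`; if `k ≠ 1` it has a prime factor `r'` in
`{l, p}` and `j ≥ r r' ≥ l^2 > d`, impossible.  So `j = 1, l, p`.  `j = 1`: `l ∣ d - 1 = (p - 1) + l`, `l ∣ a + d`, so `l ∣ a + 1`.  `j = l`:
`d - l = p`, `p ∣ a + d`, so `p ∣ a + l`.  `j = p`: `d - p = l`, so `l ∣ a + p`.  Hence `gcd c (a + d) > 1`.
The set in `IsRankTwo` is `{l, p}`: `l`, `p` are `< d`, divide `a + d`, and do not divide `d = p + l` (different
primes); a prime `r < d`, `r ∉ {l, p}`, divides `a`, so if it divides `a + d` it divides `d`.  `Set.ncard_pair`. -/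
def EwcStmt : Prop := ∀ p l : ℕ, p.Prime → l.Prime → l ∣ p - 1 → p + l < l ^ 2 →
  IsRankTwo (p + l)

/-- **RK2** (medium; uses nothing).  The converse.
PROOF.  `F` = the set in `IsRankTwo` for `(a, d)`; `F = {l, p}` with `l < p` (`Set.ncard_eq_two`).  CLAIM: if `1 ≤ j < d` and all
prime factors of `j` are in `F`, then some `q ∈ F` divides `d - j`.  Take `c = a + j`.  `gcd a c > 1` is impossible: a common
prime factor `r` divides `j`, so `r ∈ F`, `r ∣ a + d`, `r ∣ a`, so `r ∣ d`, but the elements of `F` do not divide `d`.  So there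
is a prime `r` dividing `a + j` and `a + d`: `r ∣ d - j`, `r ≤ d - j < d`; if `r ∣ d` then `r ∣ j`, `r ∈ F`, a contradiction;
so `r ∈ F`.
`j = p`: some `q ∈ F` divides `d - p`; `q ≠ p` (`p ∤ d`), so `l ∣ d - p`.  In the same way `p ∣ d - l` (`j = l`).
`d < l^2`: otherwise `l^2 < d` (`l ∤ d`), `j = l^2`: `p ∣ d - l^2` (`l ∤ d`), with `p ∣ d - l`: `p ∣ l^2 - l = l (l - 1)`, but `p ∤ l` and
`0 < l - 1 < p`.  In the integers `l` and `p` divide `d - p - l`, so `l p` does; `-l < d - p - l < l^2 < l p` (`p < d`), so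
`d = p + l`.  `j = 1`: some `q ∈ F` divides `d - 1 = p + l - 1`; `q = p` would give `p ∣ l - 1`, impossible; so `l ∣ p - 1`. -/
def Rk2Stmt : Prop := ∀ d : ℕ, IsRankTwo d →
  ∃ p l : ℕ, p.Prime ∧ l.Prime ∧ l ∣ p - 1 ∧ d = p + l ∧ d < l ^ 2

/-- **INJ** (easy; uses nothing).  Two large prime factors.
PROOF.  If `l ≠ l'` then `l l' ∣ m` (coprime), so `l l' ≤ m < d`, but `d^2 < l^2 l'^2`. -/
def InjStmt : Prop := ∀ m d l l' : ℕ, 0 < m → m < d → l.Prime → l'.Prime → l ∣ m → l' ∣ m →
  d < l ^ 2 → d < l' ^ 2 → l = l'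

/-- **RKL** (easy-medium; uses EWC, INJ).  The lower bound.
PROOF.  For `p ∈ lpr x \ lss x` choose `l(p)` from `lpr`: `p + l(p) ≤ x` (otherwise `p ∈ lss x`), `x < l(p)^2`, so `p + l(p)` is rank
two and `≤ x` (EWC).  The map `p ↦ p + l(p)` is injective: if `p + l = p' + l' = d`, then `d - 1 = (p - 1) + l = (p' - 1) + l'` is
divisible by `l` and `l'` and `d < l^2, l'^2`: INJ with `m = d - 1`: `l = l'`, `p = p'`.  So
`#(lpr x \ lss x) ≤ r2Count x` (the set of `r2Count` is finite: `Set.ncard_le_ncard`, `Finset.card_image_of_injOn`). -/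
def RklStmt : Prop := ∀ x : ℕ, (lpr x).card ≤ r2Count x + (lss x).card

/-- **RKU** (easy-medium; uses RK2, INJ).  The upper bound.
PROOF.  For a rank two `d ≤ x` choose `p(d)`, `l(d)` from RK2; `p(d) ≤ x` is prime.  `d ↦ p(d)` is injective: if
`p(d) = p(d') = p`, then `l`, `l'` divide `m = p - 1`, `p < l^2, l'^2`: INJ with `d := p`: `l = l'`, `d = d'`.  The number of primes
`≤ x` is `Nat.primeCounting x` (`Nat.primesLE`, `Nat.primesLE_card_eq_primeCounting`, or the definition). -/
def RkuStmt : Prop := ∀ x : ℕ, r2Count x ≤ Nat.primeCounting x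

/-- **PNU** (easy; uses nothing; import `Pool.Agent.Common_PNT.PNT`, `tendsto_primeCounting`). -/
def PnuStmt : Prop := ∀ η : ℝ, 0 < η → ∃ X : ℕ, ∀ x : ℕ, X ≤ x →
  (Nat.primeCounting x : ℝ) ≤ (1 + η) * x / Real.log x

/-- **RSE** (easy; uses nothing).  Rank two implies Erdos-Woods; `Set.ncard_le_ncard`, finite sets. -/
def RseStmt : Prop := ∀ x : ℕ, r2Count x ≤ ewCount x

/-- **SMN** (easy-medium; uses nothing).  The known small case, a check of the definitions: `a = 2184`, `d = 16`.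
PROOF.  Directly for `(2184, 16)` (`decide`/`interval_cases`), or EWC with `p = 11`, `l = 5`. -/
def SmnStmt : Prop := IsErdosWoods 16 ∧ NoCoprimeInterior 2184 16

end Pool.Agent.EWG
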