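import Pool.Agent.Helper51_EWG.DUA
import Pool.Agent.Helper1_EWG.ALS
import Pool.Agent.Helper89_EWG.FAR
import Pool.Agent.Helper89_EWG.PAR
import Pool.Agent.Helper5_EWG.LSV
import Pool.Agent.Helper89_EWG.BIL
import Pool.Agent.Helper53_EWG.SEP
import Pool.Agent.Helper29_EWG.BLT
import Pool.Agent.Helper19_EWG.VAU
import Pool.Agent.Helper64_EWG.TAU
import Pool.Agent.Helper76_EWG.TPB
import Pool.Agent.Helper51_EWG.TY1
import Pool.Agent.Helper11_EWG.TY2
import Pool.Agent.Helper36_EWG.BVD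
import Pool.Agent.Helper50_EWG.BVF
import Pool.Agent.Helper2_EWG.BVW
import Pool.Agent.Helper50_EWG.BT2
import Pool.Agent.Helper19_EWG.SLL
import Pool.Agent.Helper98_EWG.MRG
import Pool.Agent.Helper82_EWG.PPW
import Pool.Agent.Helper44_EWG.TOT
import Pool.Agent.Helper39_EWG.SWP
import Pool.Agent.Helper95_EWG.MDL
import Pool.Agent.Helper5_EWG.LOE
import Pool.Agent.Helper53_EWG.HIE
import Pool.Agent.Helper80_EWG.GOL
import Pool.Agent.Helper26_EWG.CNT
import Pool.Agent.Helper5_EWG.TWA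
import Pool.Agent.Helper62_EWG.LOS
import Pool.Agent.Helper89_EWG.EWC
import Pool.Agent.Helper75_EWG.RK2
import Pool.Agent.Helper97_EWG.INJ
import Pool.Agent.Helper89_EWG.RKL
import Pool.Agent.Helper89_EWG.RKU
import Pool.Agent.Helper64_EWG.PNU
import Pool.Agent.Helper51_EWG.RSE
import Pool.Agent.Helper89_EWG.FIN

/-!
# Squad EWG (MP_b66c3b_nt): composition
-/

set_option autoImplicit false

namespace Pool.Agent.EWG.Main

open Pool.Agent.EWG

theorem dua : DuaStmt := Pool.Agent.EWG.H51.dua 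

theorem als : AlsStmt := Pool.Agent.EWG.H1.als dua

theorem far : FarStmt := Pool.Agent.EWG.H89.far 

theorem par : ParStmt := Pool.Agent.EWG.H89.par 

theorem lsv : LsvStmt := Pool.Agent.EWG.H5.lsv als far par

theorem bil : BilStmt := Pool.Agent.EWG.H89.bil 

theorem sep : SepStmt := Pool.Agent.EWG.H53.sep 

theorem blt : BltStmt := Pool.Agent.EWG.H29.blt lsv bil sep

theorem vau : VauStmt := Pool.Agent.EWG.H19.vau 

theorem tau : TauStmt := Pool.Agent.EWG.H64.tau 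

theorem tpb : TpbStmt := Pool.Agent.EWG.H76.tpb 

theorem ty1 : Ty1Stmt := Pool.Agent.EWG.H51.ty1 tpb

theorem ty2 : Ty2Stmt := Pool.Agent.EWG.H11.ty2 blt tau

theorem bvd : BvdStmt := Pool.Agent.EWG.H36.bvd vau ty1 ty2

theorem bvf : BvfStmt := Pool.Agent.EWG.H50.bvf bvd

theorem bvw : BvfW := Pool.Agent.EWG.H2.bvw bvf

theorem bt2 : Bt2Stmt := Pool.Agent.EWG.H50.bt2 

theorem sll : SllStmt := Pool.Agent.EWG.H19.sll 

theorem mrg : MrgStmt := Pool.Agent.EWG.H98.mrg 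

theorem ppw : PpwStmt := Pool.Agent.EWG.H82.ppw bt2

theorem tot : TotStmt := Pool.Agent.EWG.H44.tot 

theorem swp : SwpStmt := Pool.Agent.EWG.H39.swp 

theorem mdl : MdlStmt := Pool.Agent.EWG.H95.mdl bvw sll

theorem loe : LoeStmt := Pool.Agent.EWG.H5.loe bt2 sll

theorem hie : HieStmt := Pool.Agent.EWG.H53.hie bt2 mrg

theorem gol : GolStmt := Pool.Agent.EWG.H80.gol ppw tot swp mdl loe hie

theorem cnt : CntStmt := Pool.Agent.EWG.H26.cnt gol

theorem twa : TwaStmt := Pool.Agent.EWG.H5.twa 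

theorem los : LosStmt := Pool.Agent.EWG.H62.los twa

theorem ewc : EwcStmt := Pool.Agent.EWG.H89.ewc 

theorem rk2 : Rk2Stmt := Pool.Agent.EWG.H75.rk2 

theorem inj : InjStmt := Pool.Agent.EWG.H97.inj 

theorem rkl : RklStmt := Pool.Agent.EWG.H89.rkl ewc inj

theorem rku : RkuStmt := Pool.Agent.EWG.H89.rku rk2 inj

theorem pnu : PnuStmt := Pool.Agent.EWG.H64.pnu 

theorem rse : RseStmt := Pool.Agent.EWG.H51.rse 

theorem fin : FinStmt := Pool.Agent.EWG.H89.fin rkl rku pnu cnt los rse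

end Pool.Agent.EWG.Main
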