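import Pool.Agent.EWG.Defs
import Pool.Agent.Common_PrimeFourier.Block
import Pool.Agent.Common_PrimeFourier.Selberg

/-!
# Squad EWG (MP_b66c3b_nt), part B: the Bombieri-Vinogradov type estimate for the class 1 modulo primes

The goal of this part is `BvfStmt`: for every `delta, eps, eta > 0` and all large `x`

  `sum over primes l in (x^delta, x^(1/2 - eps)] of log l * |sum_{n <= x} Lambda(n) D l n| <= eta x`,

where `D l n = 1_{n = 1 mod l} - 1_{l does not divide n}/(l - 1)`.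

No characters are used.  Route: additive large sieve (dual form with the plain Dirichlet kernel), variance
over the residue classes modulo a prime, bilinear form `sum a_m b_c D l (m c)` by Cauchy-Schwarz, Vaughan's
identity.  All rows are elementary; complete proofs are in the docstrings.

Available (import `Pool.Agent.Common_PrimeFourier.Exp`, `.Block`, `.Selberg`, `.Hyperbola`, namespace
`Pool.Agent.PrimeFourier`): `e x = exp (2 pi i x)`, `e_add`, `norm_e`, `conj_e`, `e_nat`, `e_int`,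
`dist1 x` (distance to the nearest integer), `dist1_neg`, `dist1_le_half`, `dist1_eq_abs`,
`dist1_div_ge`, `bd X y = 2X/(1+2Xy)`, `bd_nonneg`, `norm_sum_e_le'`, `sum_bd_separated`,
`sum_divisorsAntidiagonal_eq`, `norm_sum_mul_le`.
-/

set_option autoImplicit false

namespace Pool.Agent.EWG

open Finset Pool.Agent.PrimeFourier
open scoped BigOperators

/-! ## Notation -/

/-- The part of the sum of `a` over `s` in the class `h` mod `l`. -/
noncomputable def cls (s : Finset ℕ) (a : ℕ → ℂ) (l h : ℕ) : ℂ :=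
  ∑ n ∈ s.filter (fun n => n % l = h), a n

/-- The mean of `cls s a l h` over the classes `h = 1, ..., l - 1` (for a prime `l`). -/
noncomputable def mn (s : Finset ℕ) (a : ℕ → ℂ) (l : ℕ) : ℂ :=
  (∑ h ∈ Ioo 0 l, cls s a l h) / ((l : ℂ) - 1)

/-- The variance over the classes `1, ..., l - 1`. -/
noncomputable def Vr (s : Finset ℕ) (a : ℕ → ℂ) (l : ℕ) : ℝ :=
  ∑ h ∈ Ioo 0 l, ‖cls s a l h - mn s a l‖ ^ 2

/-- `A_V(k)`: the sum of the Moebius function over the divisors `b > V` of `k`. -/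
noncomputable def AV (V k : ℕ) : ℝ :=
  ∑ b ∈ k.divisors.filter (fun b => V < b), (ArithmeticFunction.moebius b : ℝ)

/-- The bilinear part in Vaughan's identity, with the weight `f`. -/
noncomputable def S4 (U V x : ℕ) (f : ℕ → ℝ) : ℝ :=
  ∑ c ∈ Ioc U x, ∑ k ∈ Ioc V (x / c), ArithmeticFunction.vonMangoldt c * AV V k * f (c * k)

/-- The linear part in Vaughan's identity, with the weight `f`. -/
noncomputable def S123 (U V x : ℕ) (f : ℕ → ℝ) : ℝ :=
  ∑ n ∈ Ioc 0 U, ArithmeticFunction.vonMangoldt n * f n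
    + ∑ b ∈ Ioc 0 V, (ArithmeticFunction.moebius b : ℝ)
        * ∑ k ∈ Ioc 0 (x / b), Real.log k * f (b * k)
    - ∑ b ∈ Ioc 0 V, ∑ c ∈ Ioc 0 U, (ArithmeticFunction.moebius b : ℝ)
        * ArithmeticFunction.vonMangoldt c * ∑ k ∈ Ioc 0 (x / (b * c)), f (b * c * k)

/-! ## Rows -/

/-- Row DUA (ord 21), the dual large sieve with the plain Dirichlet kernel.

PROOF. Expand the square: the left side is
`sum_{i,j} b_i conj(b_j) K(x_i - x_j)`, `K(y) = sum_{n in (0,N]} e(y n)` (`norm_sq` as `z * conj z`,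
`conj_e`, `e_add`, exchange of the sums; take the real part or the norm at the end).
`norm_sum_e_le'` gives `|K(y)| <= bd N (dist1 y)` (with `X = N`).  With
`|b_i| |b_j| <= (|b_i|^2 + |b_j|^2)/2` and `dist1 (x_j - x_i) = dist1 (x_i - x_j)` (`dist1_neg`) the left side is
at most `sum_i |b_i|^2 sum_j bd N (dist1 (x_i - x_j))`, and for a fixed `i` the points `x_i - x_j` (`j in S`)
have the mutual differences `x_{j'} - x_j`, hence are separated too and `sum_bd_separated` gives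
`sum_j bd N (dist1 (x_i - x_j)) <= 4 N + 4 q (1 + log q)`. -/
def DuaStmt : Prop :=
  ∀ (ι : Type) (S : Finset ι) (x : ι → ℝ) (b : ι → ℂ) (q N : ℕ), 0 < q →
    (∀ i ∈ S, ∀ j ∈ S, i ≠ j → 1 / (2 * (q : ℝ)) ≤ dist1 (x i - x j)) →
    ∑ n ∈ Ioc 0 N, ‖∑ i ∈ S, b i * e (x i * n)‖ ^ 2
      ≤ (4 * (N : ℝ) + 4 * q * (1 + Real.log q)) * ∑ i ∈ S, ‖b i‖ ^ 2

/-- Row ALS (ord 22), the additive large sieve.  Uses DUA.

PROOF (duality). Put `T_i = sum_{n in (0,N]} a_n e(x_i n)`, `Z = sum_i |T_i|^2`,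
`G = 4 N + 4 q (1 + log q)`, `A = sum |a_n|^2`.  Then
`Z = sum_i conj(T_i) T_i = sum_n a_n (sum_i conj(T_i) e(x_i n))`, so by Cauchy-Schwarz
(`Finset.sum_mul_sq_le_sq_mul_sq` on the norms) and DUA with `b_i = conj(T_i)`:
`Z^2 <= A * sum_n |sum_i b_i e(x_i n)|^2 <= A * G * Z`.  If `Z > 0` divide by `Z`; if `Z = 0` the bound is
trivial (`G >= 0` because `q >= 1`). -/
def AlsStmt : Prop :=
  ∀ (ι : Type) (S : Finset ι) (x : ι → ℝ) (a : ℕ → ℂ) (q N : ℕ), 0 < q →
    (∀ i ∈ S, ∀ j ∈ S, i ≠ j → 1 / (2 * (q : ℝ)) ≤ dist1 (x i - x j)) →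
    ∑ i ∈ S, ‖∑ n ∈ Ioc 0 N, a n * e (x i * n)‖ ^ 2
      ≤ (4 * (N : ℝ) + 4 * q * (1 + Real.log q)) * ∑ n ∈ Ioc 0 N, ‖a n‖ ^ 2

/-- Row FAR (ord 23): the fractions `a/l`, `l` prime, are separated.

PROOF. `a/l - a'/l' = (a l' - a' l)/(l l')` and `dist1_div_ge` (with `q = l l'`, or with `q = l` when `l = l'`)
gives `dist1 >= 1/(l l') >= 1/Q^2`, respectively `>= 1/l >= 1/Q^2`, provided the numerator is not divisible by the
denominator.  If `l = l'` the numerator `a - a'` is nonzero and `|a - a'| < l`.  If `l` and `l'` are different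
primes and `l l' | a l' - a' l`, then `l | a l'`, so `l | a`, which contradicts `0 < a < l`. -/
def FarStmt : Prop :=
  ∀ (Q l l' a a' : ℕ), l.Prime → l'.Prime → l ≤ Q → l' ≤ Q → 0 < a → a < l → 0 < a' → a' < l' →
    (l ≠ l' ∨ a ≠ a') → 1 / ((Q : ℝ) ^ 2) ≤ dist1 ((a : ℝ) / l - (a' : ℝ) / l')

/-- Row PAR (ord 24): the variance is bounded by the exponential sums at `h/l`.

PROOF. Let `A(u) = cls s a l u` for `0 <= u < l` and `S(h) = sum_{n in s} a_n e(h n/l)`; grouping by classes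
(`e (h n/l) = e (h (n % l)/l)` because `h (n - n % l)/l` is an integer) `S(h) = sum_u A(u) e(h u/l)`.  Orthogonality:
`sum_{h < l} e(h (u - v)/l) = l` if `u = v` and `0` otherwise (`0 <= u, v < l`; geometric sum, or Mathlib's
`ZMod` Fourier transform / `AddChar` sums, or `IsPrimitiveRoot.geom_sum_eq_zero`), hence
`sum_{h < l} |S(h)|^2 = l sum_u |A(u)|^2`.  Subtract `h = 0`, `S(0) = sum_u A(u) = l m` with
`m = (1/l) sum_u A(u)`:
`sum_{h=1}^{l-1} |S(h)|^2 = l sum_u |A(u)|^2 - l^2 |m|^2 = l sum_u |A(u) - m|^2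
   >= l sum_{u=1}^{l-1} |A(u) - m|^2 >= l Vr s a l`,
the last step because the mean `mn s a l` of the `l - 1` numbers `A(1), ..., A(l-1)` minimises
`z -> sum_{u=1}^{l-1} |A(u) - z|^2`:
`sum |A(u) - z|^2 = sum |A(u) - mn|^2 + (l-1)|mn - z|^2`. -/
def ParStmt : Prop :=
  ∀ (s : Finset ℕ) (a : ℕ → ℂ) (l : ℕ), l.Prime →
    Vr s a l ≤ (1 / (l : ℝ)) * ∑ h ∈ Ioo 0 l, ‖∑ n ∈ s, a n * e ((h : ℝ) / l * n)‖ ^ 2

/-- Row LSV (ord 25), the large sieve for the variances.  Uses ALS, FAR, PAR.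

PROOF. PAR and `1/l <= 1/R`, then ALS for the index set `ι = ℕ × ℕ` (or `Sigma`), `S` = pairs `(l, h)`,
`l in P`, `0 < h < l`, the points `h/l`, `q = (2 R)^2` (separated by FAR with `Q = 2 R`,
`1/(2 q) <= 1/(2R)^2`) and `4 q (1 + log q) = 16 R^2 (1 + 2 log (2 R))`. -/
def LsvStmt : Prop :=
  ∀ (R N : ℕ) (P : Finset ℕ) (a : ℕ → ℂ), 0 < R → (∀ l ∈ P, l.Prime ∧ R < l ∧ l ≤ 2 * R) →
    ∑ l ∈ P, Vr (Ioc 0 N) a l
      ≤ (1 / (R : ℝ)) * (4 * N + 16 * (R : ℝ) ^ 2 * (1 + 2 * Real.log (2 * R)))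
        * ∑ n ∈ Ioc 0 N, ‖a n‖ ^ 2

/-- Row BIL (ord 26), the bilinear form.

PROOF. `l` is prime, so `1 % l = 1`.  If `l` divides `m c` then `D l (m c) = 0`; otherwise both are units mod
`l` and `D l (m c) = [m c = 1 mod l] - 1/(l-1)`.  Grouping by classes (`cls`), with `A(u) = cls S a l u`,
`B(v) = cls T b l v`, `0 < u, v < l`, the double sum is
`sum_{u,v} A(u) B(v) ([u v = 1] - 1/(l-1)) = sum_u A(u) B(u') - (1/(l-1)) (sum_u A(u)) (sum_v B(v))`,
`u'` = inverse of `u` mod `l` (a permutation of `1, ..., l-1`), and this is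
`sum_u (A(u) - mn S a l) (B(u') - mn T b l)`.  Cauchy-Schwarz and the permutation `u -> u'`. -/
def BilStmt : Prop :=
  ∀ (S T : Finset ℕ) (a b : ℕ → ℂ) (l : ℕ), l.Prime →
    ‖∑ m ∈ S, ∑ c ∈ T, a m * b c * ((D l (m * c) : ℝ) : ℂ)‖ ≤ √(Vr S a l) * √(Vr T b l)

/-- Row SEP (ord 27): separation of the condition `c <= t` by additive characters.

PROOF. `g t h = (1/M) sum_{j in range (min (t+1) M)} e(-(h j/M))`, `w h = (1/M) bd M (dist1 (h/M))`.
(i) `|g t h| <= w h` by `norm_sum_e_le` (the interval `Ico 0 (min (t+1) M)` has at most `M` elements) and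
`dist1_neg`.  (ii) `sum_h w h <= (1/M)(4 M + 4 M (1 + log M)) = 8 + 4 log M` by `sum_bd_separated` with
`q = M`, `X = M` and the points `h/M`, `h < M` (mutual distance `>= 1/M` by `dist1_div_ge`).
(iii) For `c < M`: `sum_{h<M} g t h e(h c/M) = sum_{j < min(t+1, M)} (1/M) sum_{h<M} e(h (c - j)/M)` and the inner
sum is `M` if `j = c`, `0` otherwise (`|c - j| < M`), so the total is `1` if `c < min (t+1) M`, i.e. `c <= t`, and
`0` otherwise. -/
def SepStmt : Prop :=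
  ∀ M : ℕ, 0 < M → ∃ (g : ℕ → ℕ → ℂ) (w : ℕ → ℝ), (∀ h, 0 ≤ w h) ∧
    (∀ t h, ‖g t h‖ ≤ w h) ∧ (∑ h ∈ range M, w h ≤ 8 + 4 * Real.log M) ∧
    ∀ t c : ℕ, c < M →
      (if c ≤ t then (1 : ℂ) else 0) = ∑ h ∈ range M, g t h * e ((h : ℝ) * c / M)

/-- Row BLT (ord 28), a block of the bilinear form with the condition `c <= t k`.  Uses LSV, BIL, SEP.

PROOF. SEP with `M = 2 C + 1` (so `c <= 2C < M`): the inner double sum is
`sum_{h<M} sum_c sum_k (alpha_c e(h c/M)) (beta_k g (t k) h) D l (c k)`.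
For each `h`, BIL bounds the norm by `√(Vr (Ioc C (2C)) alpha_h l) √(Vr (Ioc 0 K) beta_h l)`, where
`alpha_h c = alpha_c e(h c/M)`, `beta_h k = beta_k g (t k) h`; sum over `l in P` and use Cauchy-Schwarz.
`Vr (Ioc C (2C)) alpha l = Vr (Ioc 0 (2C)) (alpha cut to c > C) l`.  LSV with `N = 2C` and with `N = K`:
`(1/R) √((8 C + L)(4 K + L)) √(sum |alpha|^2) * w h * √(sum |beta|^2)`, `L = 16 R^2 (1 + 2 log (2R))`, since
`|alpha_h| = |alpha|`, `|beta_h k| <= w h |beta_k|`.  Sum over `h`: `sum w h <= 8 + 4 log (2C+1)`. -/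
def BltStmt : Prop :=
  ∀ (R C K : ℕ) (P : Finset ℕ) (t : ℕ → ℕ) (α β : ℕ → ℂ), 0 < R → 0 < C →
    (∀ l ∈ P, l.Prime ∧ R < l ∧ l ≤ 2 * R) →
    ∑ l ∈ P, ‖∑ c ∈ Ioc C (2 * C), ∑ k ∈ Ioc 0 K,
        (if c ≤ t k then α c * β k * ((D l (c * k) : ℝ) : ℂ) else 0)‖
      ≤ (1 / (R : ℝ)) * (8 + 4 * Real.log (2 * C + 1))
        * √((8 * C + 16 * (R : ℝ) ^ 2 * (1 + 2 * Real.log (2 * R)))
            * (4 * K + 16 * (R : ℝ) ^ 2 * (1 + 2 * Real.log (2 * R))))
        * √(∑ c ∈ Ioc C (2 * C), ‖α c‖ ^ 2) * √(∑ k ∈ Ioc 0 K, ‖β k‖ ^ 2)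

/-- Row VAU (ord 29), Vaughan's identity in summed form.

PROOF. In the commutative ring `ArithmeticFunction ℝ` let `Λ = Λ₁ + Λ₂` (cut at `U`: `Λ₁` supported on
`n <= U`), `μ = μ₁ + μ₂` (cut at `V`).  From `μ * ζ = 1` and `Λ * ζ = log`:
`Λ = Λ₁ + Λ₂ = Λ₁ + Λ₂ * (μ₁ + μ₂) * ζ = Λ₁ + μ₁ * log - μ₁ * Λ₁ * ζ + Λ₂ * (μ₂ * ζ)`
(`Λ₂ * μ₁ * ζ = (Λ - Λ₁) * μ₁ * ζ`).  Multiply the value at `n` by `f n`, sum over `n in (0, x]` and use
`sum_divisorsAntidiagonal_eq` (once for the second and the fourth term, twice for the third; terms with a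
factor above the cut vanish, and `b > x` gives `x / b = 0`, an empty sum).  `(μ₂ * ζ)(k) = AV V k` and
`AV V k = 0` for `1 <= k <= V` (a divisor `b > V` of `k` would be larger than `k`).
The hypothesis `U <= x` is used in the first and in the last term. -/
def VauStmt : Prop :=
  ∀ (f : ℕ → ℝ) (U V x : ℕ), U ≤ x →
    ∑ n ∈ Ioc 0 x, ArithmeticFunction.vonMangoldt n * f n = S123 U V x f + S4 U V x f

/-- Row TAU (ord 30): the second moment of the divisor function.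

PROOF. `τ(k)^2` is the number of pairs `(d, d')` of divisors of `k`.  With `g = gcd (d, d')`, `d = g a`,
`d' = g b`, `a, b` coprime, `k` is divisible by `lcm (d, d') = g a b`; write `k = g a b m`.  The map
`(k, d, d') -> (g, a, b, m)` is injective, so the sum is at most the number of `(g, a, b, m)`,
`g, a, b in [1, K]`, with `g a b m <= K`, which is at most
`sum_{g,a,b <= K} K/(g a b) = K (sum_{n <= K} 1/n)^3 <= K (1 + log K)^3`
(`harmonic_le_one_add_log`, or `sum_inv_le` in `Pool.Agent.Common_Mertens.Mertens`). -/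
def TauStmt : Prop :=
  ∀ K : ℕ, ∑ k ∈ Ioc 0 K, ((k.divisors.card : ℝ)) ^ 2 ≤ K * (1 + Real.log K) ^ 3

/-- Row TPB (ord 31): sums of `D l (b k)` over an interval of `k` are bounded.

PROOF. `1 % l = 1`.  If `l | b` all terms vanish.  Otherwise `b` is a unit mod `l`, `k -> D l (b k)` is periodic
mod `l`, its sum over a period is `1 - (l-1)/(l-1) = 0`, and over fewer than `l` consecutive integers it is
`(number of solutions of b k = 1, which is 0 or 1) - (number of k not divisible by l)/(l-1)`, a difference of two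
numbers in `[0, 1]`; so the first sum has absolute value at most `1`.  (Induction on `K / l`, or: the
number of `k in (0, K]` in a class prime to `l` differs from `(number of k in (0, K] prime to l)/(l-1)` by at
most `1`.)  Second: with `T(k)` the partial sums, `|T| <= 1`,
`sum_{k <= K} log k D l (b k) = log K T(K) - sum_{k < K} (log (k+1) - log k) T(k)`, at most
`log K + log K` in absolute value (`norm_sum_mul_le` in `Exp.lean` is a complex version). -/
def TpbStmt : Prop :=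
  ∀ (l b K : ℕ), l.Prime →
    |∑ k ∈ Ioc 0 K, D l (b * k)| ≤ 1 ∧ |∑ k ∈ Ioc 0 K, Real.log k * D l (b * k)| ≤ 2 * Real.log K

/-- Row TY1 (ord 32): the linear part is small.  Uses TPB.

PROOF. `|D l n| <= 1`, `0 <= Λ(n) <= log n` (`ArithmeticFunction.vonMangoldt_le_log`), `|μ| <= 1`.
First sum: at most `U log U <= U V log x`.  Second: `V` terms, each at most `2 log (x/b) <= 2 log x`
by TPB.  Third: TPB gives `1` for the inner sum, `sum_b sum_c Λ(c) <= V U log x`.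
Total `<= (U V + 2 V + U V) log x <= 4 U V log x`. -/
def Ty1Stmt : Prop :=
  ∀ (l U V x : ℕ), l.Prime → 1 ≤ U → 1 ≤ V → U ≤ x →
    |S123 U V x (D l)| ≤ 4 * U * V * Real.log x

/-- Row TY2 (ord 33): the bilinear part on a dyadic block of primes.  Uses BLT, TAU.

PROOF. Decompose `(U, x]` into the blocks `(C, 2C]`, `C = 2^i U`, `i = 0, 1, ...`; if `C V > x` then for `c > C` the
inner sum is empty (`x / c < V`), so only the `i` with `2^i U V <= x` matter; their number is at most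
`1 + log x/log 2 <= 2 (1 + log x)`.  For one `C`, `K = x / C` (`>= V >= 1`), for `c > C`, `k <= x / c` implies
`k <= K`, and for `1 <= k <= K` the condition `k <= x / c` is `c k <= x`, i.e. `c <= t k`, `t k = x / k`.
Put `α c = Λ(c)` and `β k = AV V k` for `k > V`, `0` otherwise.  BLT applies (the sum is real: the norm of
the complex number is the absolute value).  Here `sum_{c in (C,2C]} Λ(c)^2 <= C (log (2C))^2`,
`|AV V k| <= τ(k)`, so `sum |β|^2 <= K (1 + log K)^3` by TAU.  With `y = 1 + log x` (and `C <= x`, `K <= x`,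
`R <= x`): `8 + 4 log (2C+1) <= 20 y`, `log (2C) <= y`, `(1 + log K)^(3/2) <= y^2`,
`1 + 2 log (2R) <= 3 y`, and, with `L = 16 R^2 (1 + 2 log (2R)) <= 48 R^2 y`,
`√((8C + L)(4K + L)) <= √(32 C K) + √(8 C L) + √(4 K L) + L`
(`√(a+b+c+d) <= √a + √b + √c + √d`), `C K <= x`, `C <= x/V`, `K <= x/U`.  So the block contributes at most
`(1/R) 20 y * y * y^2 * √x * (6 √x + 20 R √y √(x/V) + 14 R √y √(x/U) + 48 R^2 y)
 <= B' y^5 (x/R + x/√V + x/√U + √x R)`; sum over the `<= 2 y` blocks. -/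
def Ty2Stmt : Prop := ∃ B : ℝ, 0 < B ∧
  ∀ (R U V x : ℕ) (P : Finset ℕ), 0 < R → R ≤ x → 1 ≤ U → 1 ≤ V → U ≤ x →
    (∀ l ∈ P, l.Prime ∧ R < l ∧ l ≤ 2 * R) →
    ∑ l ∈ P, |S4 U V x (D l)|
      ≤ B * (1 + Real.log x) ^ 8 * ((x : ℝ) / R + x / √U + x / √V + √x * R)

/-- Row BVD (ord 34): one dyadic block of primes.  Uses VAU, TY1, TY2.

PROOF. VAU with `f = D l`, `U = V = W`; TY2 and TY1 (`4 W^2 log x` for each of the at most `R` primes `l`
in `P`, since `P` is a subset of `Ioc R (2R)`). -/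
def BvdStmt : Prop := ∃ B : ℝ, 0 < B ∧
  ∀ (R W x : ℕ) (P : Finset ℕ), 0 < R → R ≤ x → 1 ≤ W → W ≤ x →
    (∀ l ∈ P, l.Prime ∧ R < l ∧ l ≤ 2 * R) →
    ∑ l ∈ P, |∑ n ∈ Ioc 0 x, ArithmeticFunction.vonMangoldt n * D l n|
      ≤ B * (1 + Real.log x) ^ 8 * ((x : ℝ) / R + x / √W + √x * R + R * (W : ℝ) ^ 2)

/-- Row BVF (ord 35), the goal of part B.  Uses BVD.

PROOF. Let `R₀ = ⌊x^δ⌋₊ >= 1` and `R_i = 2^i R₀`.  A natural number `l > x^δ` is `> R₀`; hence every `l` of the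
sum lies in exactly one block `(R_i, 2 R_i]` with `R_i < l <= x^(1/2 - ε)`, and `2^i <= x` leaves at most
`1 + log x/log 2 <= 2 (1 + log x)` blocks.  In such a block `log l <= log x` and BVD with
`W = ⌊x^(1/16)⌋₊` (`>= 1`, `>= x^(1/16)/2`) gives
`log x * B (1 + log x)^8 (x/R_i + x/√W + √x R_i + R_i W^2)`, where
`x/R_i <= x/R₀ <= 2 x^(1-δ)`, `x/√W <= 2 x^(1 - 1/32)`, `√x R_i <= x^(1-ε)`, `R_i W^2 <= x^(1/2 + 1/8)`.
Altogether at most `C (1 + log x)^10 x^(1-κ)` with `κ = min (δ, ε, 1/32)`, which is `<= η x` for large `x`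
(`isLittleO_log_rpow_atTop`, or `eventually_log_pow_le` style lemmas in `Common_PrimeFourier/TypeIFinal.lean`).
If `ε >= 1/2` the range is empty for `x >= 2` or contains only `l <= 1` (no prime). -/
def BvfStmt : Prop :=
  ∀ δ ε η : ℝ, 0 < δ → 0 < ε → 0 < η → ∀ᶠ x : ℕ in Filter.atTop,
    ∑ l ∈ (Finset.Icc 1 x).filter
        (fun l : ℕ => l.Prime ∧ (x : ℝ) ^ δ < (l : ℝ) ∧ (l : ℝ) ≤ (x : ℝ) ^ (1 / 2 - ε)),
      Real.log (l : ℝ) * |∑ n ∈ Ioc 0 x, ArithmeticFunction.vonMangoldt n * D l n| ≤ η * x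

end Pool.Agent.EWG
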