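import Pool.Agent.EWG.StmtsA
import Pool.Agent.EWG.StmtsC

/-!
# Squad EWG (MP_b66c3b_nt), part D: the theorem
-/

set_option autoImplicit false

namespace Pool.Agent.EWG

/-- **FIN** (easy; uses RKL, RKU, PNU, CNT, LOS, RSE).  The theorem.
PROOF.  CNT, LOS with `ε/2`, PNU with `ε`: for large `n`:
`(1/2 - ε) n/log n ≤ #lpr n - #lss n ≤ r2Count n ≤ π(n) ≤ (1 + ε) n/log n`. -/
def FinStmt : Prop := ∀ ε : ℝ, 0 < ε → ∃ X : ℕ, ∀ n : ℕ, X ≤ n →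
  (1 / 2 - ε) * (n / Real.log n) ≤ (r2Count n : ℝ) ∧
    (r2Count n : ℝ) ≤ (1 + ε) * (n / Real.log n) ∧ r2Count n ≤ ewCount n

end Pool.Agent.EWG
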